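import Pool.Agent.QSB.StmtsE
import Pool.Agent.Helper30_QSN.MSU

set_option autoImplicit false

/-!
# Squad QSB, row S3U: the condition S3 for the unitary groups of maximal index
-/

namespace Pool.Agent.QSB.H28

open Matrix Finset Pool.Agent.QSX Pool.Agent.QSN Pool.Agent.QSB
open Pool.Agent.QSX.H27S (RI ne_rev)
open Pool.Agent.QSN.H30M

variable {p k : ℕ} {𝔻 : Subalgebra ℝ (Matrix (Fin k) (Fin k) ℝ)} {ε : ℝ}

theorem s3_wt (hk : 0 < k) (i j : Fin (2 * p)) (a : Matrix (Fin k) (Fin k) ℝ) (c : bU p k) :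
    diagonal (c : Fin (2 * p * k) → ℝ) * blk k (2 * p) (TT k ε i j a) -
      blk k (2 * p) (TT k ε i j a) * diagonal (c : Fin (2 * p * k) → ℝ) =
      rq hk i j c • blk k (2 * p) (TT k ε i j a) := by
  obtain ⟨_, c, hc, rfl⟩ := c
  rw [rq_apply hk _ _ c hc]
  show diagonal (cst k (2 * p) c) * _ - _ * diagonal (cst k (2 * p) c) = _
  rw [← blk_dia, ← map_mul, ← map_mul, ← map_sub, ← map_smul, dia_TT c hc]

theorem s3_mk (hk : 0 < k) (hε : ε * ε = 1) (ht : ∀ a ∈ 𝔻, aᵀ ∈ 𝔻) {i j : Fin (2 * p)}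
    (hij : i < j) {a : Matrix (Fin k) (Fin k) ℝ} (ha : a ∈ VV p 𝔻 ε i j) (ha0 : a ≠ 0) :
    RtV (datU p 𝔻 ε hε) (rq hk i j) (blk k (2 * p) (TT k ε i j a)) := by
  refine ⟨⟨⟨_, TT_mem hε ht hij ha, rfl⟩, fun c => s3_wt hk i j a c⟩, fun h0 => ha0 ?_⟩
  have h1 : TT k ε i j a = 0 := (blk k (2 * p)).injective (by rw [map_zero]; exact h0)
  have h2 := congrFun (congrFun h1 i) j
  rw [TT_apply, if_pos ⟨rfl, rfl⟩] at h2
  exact h2

theorem s3_cls (hk : 0 < k) (hε : ε * ε = 1) (ht : ∀ a ∈ 𝔻, aᵀ ∈ 𝔻) (ρ : bU p k →ₗ[ℝ] ℝ)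
    (z : Matrix (Fin (2 * p * k)) (Fin (2 * p * k)) ℝ) (hz : RtV (datU p 𝔻 ε hε) ρ z) :
    ∃ l : RI (2 * p), ρ = rq hk l.1.1 l.1.2 ∧ ∃ a ∈ VV p 𝔻 ε l.1.1 l.1.2, a ≠ 0 ∧
      z = blk k (2 * p) (TT k ε l.1.1 l.1.2 a) := by
  obtain ⟨⟨⟨x, hx, rfl⟩, hw⟩, hz0⟩ := hz
  have key : ∀ i j, x i j ≠ 0 → ρ = rq hk i j := by
    intro i j hij
    refine rq_ext hk fun c hc => ?_
    have h1 := hw ⟨cst k (2 * p) c, c, hc, rfl⟩
    have h2 : blk k (2 * p) (dia k c * x - x * dia k c) =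
        blk k (2 * p) (ρ ⟨cst k (2 * p) c, c, hc, rfl⟩ • x) := by
      rw [map_sub, map_mul, map_mul, blk_dia, map_smul]
      exact h1
    have h3 := congrFun (congrFun ((blk k (2 * p)).injective h2) i) j
    rw [Matrix.sub_apply, dia, Matrix.diagonal_mul, Matrix.mul_diagonal, Matrix.smul_mul,
      Matrix.mul_smul, Matrix.one_mul, Matrix.mul_one, ← sub_smul, Matrix.smul_apply] at h3
    rw [rq_apply hk _ _ c hc]
    exact (smul_left_injective ℝ hij h3).symm
  have hx0 : x ≠ 0 := by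
    rintro rfl
    exact hz0 (map_zero _)
  obtain ⟨l, hl⟩ : ∃ l : RI (2 * p), x l.1.1 l.1.2 ≠ 0 := by
    by_contra hcon
    push Not at hcon
    exact hx0 (ext_fund hε hx (Submodule.zero_mem _) fun l => hcon l)
  refine ⟨l, key _ _ hl, x l.1.1 l.1.2, entry_VV hε hx _ _, hl, ?_⟩
  have e : x = TT k ε l.1.1 l.1.2 (x l.1.1 l.1.2) := by
    refine ext_fund hε hx (TT_mem hε ht l.2.1 (entry_VV hε hx _ _)) fun l' => ?_
    rw [TT_fund']
    by_cases h : l' = l
    · rw [if_pos h, h]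
    · rw [if_neg h]
      by_contra h5
      exact h (rq_inj hk ((key _ _ h5).symm.trans (key _ _ hl)))
  exact congrArg (blk k (2 * p)) e

theorem s3_npr (hk : 0 < k) {l l' : RI (2 * p)} (h : l ≠ l') :
    NPr (rq hk l.1.1 l.1.2) (rq hk l'.1.1 l'.1.2) :=
  ⟨fun c => rq_nonprop hk h c, fun c => rq_nonprop hk (Ne.symm h) c⟩

/-- the bracket of root vectors as an element of the span -/
theorem s3_gnd (hk : 0 < k) (hε : ε * ε = 1) (ht : ∀ a ∈ 𝔻, aᵀ ∈ 𝔻) (ρ : bU p k →ₗ[ℝ] ℝ)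
    (q1 q2 : RI (2 * p)) (hne : q1 ≠ q2)
    (hq : rq hk q1.1.1 q1.1.2 + rq hk q2.1.1 q2.1.2 = ρ)
    {a b : Matrix (Fin k) (Fin k) ℝ} (ha : a ∈ VV p 𝔻 ε q1.1.1 q1.1.2) (ha0 : a ≠ 0)
    (hb : b ∈ VV p 𝔻 ε q2.1.1 q2.1.2) (hb0 : b ≠ 0)
    (x : Matrix (Fin (2 * p)) (Fin (2 * p)) (Matrix (Fin k) (Fin k) ℝ))
    (hx : TT k ε q1.1.1 q1.1.2 a * TT k ε q2.1.1 q2.1.2 b -
      TT k ε q2.1.1 q2.1.2 b * TT k ε q1.1.1 q1.1.2 a = x) :
    blk k (2 * p) x ∈ Submodule.span ℝ {z | ∃ (σ σ' : (datU p 𝔻 ε hε).b →ₗ[ℝ] ℝ)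
      (y y' : Matrix (Fin (datU p 𝔻 ε hε).m) (Fin (datU p 𝔻 ε hε).m) ℝ), NPr σ σ' ∧ σ + σ' = ρ ∧
      RtV (datU p 𝔻 ε hε) σ y ∧ RtV (datU p 𝔻 ε hε) σ' y' ∧ z = y * y' - y' * y} := by
  apply Submodule.subset_span
  refine ⟨_, _, _, _, s3_npr hk hne, hq, s3_mk hk hε ht q1.2.1 ha ha0,
    s3_mk hk hε ht q2.2.1 hb hb0, ?_⟩
  rw [← hx, map_sub, map_mul, map_mul]
  rfl

theorem s3u : S3uStmt := by
  intro k p 𝔻 ε hε hk hp hH ρ hρ
  have : Nonempty (Fin k) := ⟨⟨0, hk⟩⟩
  have ht := hH.2.1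
  obtain ⟨g, hg, g', hg', hg0, hg2, hgg⟩ := exists_g hH
  have isr : ∀ i j : Fin (2 * p), i < j → IsRt (datU p 𝔻 ε hε) (rq hk i j) := by
    intro i j hij
    by_cases h : j = Fin.rev i
    · exact ⟨_, s3_mk hk hε ht hij (a := g) ⟨hg, fun _ => hg2⟩ hg0⟩
    · exact ⟨_, s3_mk hk hε ht hij (a := 1) ⟨𝔻.one_mem, fun h' => absurd h' h⟩ one_ne_zero⟩
  obtain ⟨z, hz⟩ := hρ
  obtain ⟨⟨⟨i, j⟩, h1, h2⟩, hρ, -⟩ := s3_cls hk hε ht ρ z hz
  simp only at h1 h2 hρ
  rw [Fin.lt_def] at h1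
  have hi := i.2
  have hj := j.2
  by_cases hA : (j : ℕ) < p
  · -- type (A)
    right; right; right; left
    refine ⟨rq hk j (Fin.rev j), isr _ _ (by rw [Fin.lt_def, Fin.val_rev]; omega), ?_⟩
    have e : (2 : ℝ) • rq hk i j + rq hk j (Fin.rev j) = rq hk i (Fin.rev i) := by
      refine rq_ext hk fun c hc => ?_
      rw [LinearMap.add_apply, LinearMap.smul_apply, rq_apply hk _ _ c hc, rq_apply hk _ _ c hc,
        rq_apply hk _ _ c hc, hc, hc, smul_eq_mul]
      ring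
    have h3 := isr i (Fin.rev i) (by rw [Fin.lt_def, Fin.val_rev]; omega)
    rw [← e] at h3
    rw [hρ]
    exact h3
  · by_cases hL : j = Fin.rev i
    · by_cases hi0 : (i : ℕ) = 0
      · -- the top root
        left
        obtain ⟨o, ho⟩ : ∃ o : Fin (2 * p), (o : ℕ) = 1 := ⟨⟨1, by omega⟩, rfl⟩
        intro x hx
        obtain ⟨l', hl', a, ha, ha0, rfl⟩ := s3_cls hk hε ht ρ x hx
        have hll : l' = ⟨(i, j), by rw [Fin.lt_def]; exact h1, h2⟩ :=
          rq_inj hk (hl'.symm.trans hρ)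
        subst hll
        simp only at ha ⊢
        have ha2 := ha.2 hL
        have hio : i < o := by rw [Fin.lt_def]; omega
        have hio2 : i < Fin.rev o := by rw [Fin.lt_def, Fin.val_rev]; omega
        refine s3_gnd hk hε ht ρ ⟨(i, o), hio, by simp only; omega⟩
          ⟨(i, Fin.rev o), hio2, by simp only [Fin.val_rev]; omega⟩ ?_ ?_
          (a := 1) (b := (1 / 2 : ℝ) • a) (mem_VV' 𝔻.one_mem (by simp only; omega)) one_ne_zero
          (mem_VV' (𝔻.smul_mem ha.1 _) (by simp only [Fin.val_rev]; omega))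
          (smul_ne_zero (by norm_num) ha0) _ ?_
        · intro heq
          have h5 : o = Fin.rev o := congrArg (fun q : RI (2 * p) => q.1.2) heq
          exact ne_rev (even_two_mul p) o h5
        · show rq hk i o + rq hk i (Fin.rev o) = ρ
          rw [hρ, hL]
          refine rq_ext hk fun c hc => ?_
          rw [LinearMap.add_apply, rq_apply hk _ _ c hc, rq_apply hk _ _ c hc,
            rq_apply hk _ _ c hc, hc, hc]
          ring
        · simp only
          refine Matrix.ext fun u v => ?_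
          rw [br3 ε hio hio2, TT_apply, hL, Fin.rev_rev]
          have hs1 : sU p ε i = 1 := if_pos (by omega)
          have hs2 : sU p ε o = 1 := if_pos (by omega)
          have hs3 : sU p ε (Fin.rev o) = ε := if_neg (by rw [Fin.val_rev]; omega)
          by_cases h5 : u = i ∧ v = Fin.rev i
          · rw [if_pos h5, if_pos h5, hs1, hs2, hs3, one_mul, one_mul, one_mul, one_smul,
              Matrix.transpose_one, mul_one, Matrix.transpose_smul, ha2, smul_smul, smul_smul,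
              ← add_smul]
            have : -ε * (1 / 2) * -ε + 1 / 2 = 1 := by linear_combination (1 / 2) * hε
            rw [this, one_smul]
          · rw [if_neg h5, if_neg h5, if_neg h5]
      · -- long roots, not the top
        right; right; right; right
        obtain ⟨o, ho⟩ : ∃ o : Fin (2 * p), (o : ℕ) = 0 := ⟨⟨0, by omega⟩, rfl⟩
        have hoi : o < i := by rw [Fin.lt_def]; omega
        have hji : (j : ℕ) = 2 * p - 1 - i := by rw [hL, Fin.val_rev]; omega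
        have np : NPr (rq hk o i) ρ := by
          rw [hρ]
          refine s3_npr hk (l := ⟨(o, i), hoi, by simp only; omega⟩)
            (l' := ⟨(i, j), by rw [Fin.lt_def]; exact h1, h2⟩) ?_
          intro heq
          have h5 : o = i := congrArg (fun q : RI (2 * p) => q.1.1) heq
          exact hoi.ne h5
        have e1 : rq hk i j + rq hk o i = rq hk o (Fin.rev i) := by
          rw [hL, add_comm]
          exact rq_add hk _ _ _
        have e2 : rq hk i j + rq hk o i + rq hk o i = rq hk o (Fin.rev o) := by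
          rw [e1]
          refine rq_ext hk fun c hc => ?_
          rw [LinearMap.add_apply, rq_apply hk _ _ c hc, rq_apply hk _ _ c hc,
            rq_apply hk _ _ c hc, hc, hc]
          ring
        have r1 := isr o (Fin.rev i) (by rw [Fin.lt_def, Fin.val_rev]; omega)
        have r2 := isr o (Fin.rev o) (by rw [Fin.lt_def, Fin.val_rev]; omega)
        rw [← e1] at r1
        rw [← e2] at r2
        refine ⟨rq hk o i, rq hk o i, isr _ _ hoi, isr _ _ hoi, np, np, ?_, ?_, ?_⟩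
        · rw [hρ]
          exact r1
        · rw [hρ]
          exact r1
        · rw [hρ]
          exact r2
    · -- type (C)
      left
      have hne : (i : ℕ) + j + 1 ≠ 2 * p := by
        intro h
        apply hL
        rw [Fin.ext_iff, Fin.val_rev]
        omega
      obtain ⟨h, hh⟩ : ∃ h : Fin (2 * p), (h : ℕ) = 2 * p - 1 - j := ⟨⟨2 * p - 1 - j, by omega⟩, rfl⟩
      have hjh : j = Fin.rev h := by rw [Fin.ext_iff, Fin.val_rev]; omega
      have hih : i < h := by rw [Fin.lt_def]; omega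
      intro x hx
      obtain ⟨l', hl', a, ha, ha0, rfl⟩ := s3_cls hk hε ht ρ x hx
      have hll : l' = ⟨(i, j), by rw [Fin.lt_def]; exact h1, h2⟩ :=
        rq_inj hk (hl'.symm.trans hρ)
      subst hll
      simp only at ha ⊢
      have haD : a * g' ∈ 𝔻 := 𝔻.mul_mem ha.1 hg'
      have hag0 : a * g' ≠ 0 := by
        intro h0
        apply ha0
        have : a * (g' * g) = 0 := by rw [← mul_assoc, h0, zero_mul]
        rwa [hgg, mul_one] at this
      have hhr : h < Fin.rev h := by rw [Fin.lt_def, Fin.val_rev]; omega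
      refine s3_gnd hk hε ht ρ ⟨(i, h), hih, by simp only; omega⟩
        ⟨(h, Fin.rev h), hhr, by simp only [Fin.val_rev]; omega⟩ ?_ ?_
        (a := a * g') (b := g) (mem_VV' haD (by simp only; omega)) hag0 ⟨hg, fun _ => hg2⟩ hg0 _ ?_
      · intro heq
        have h5 : i = h := congrArg (fun q : RI (2 * p) => q.1.1) heq
        exact hih.ne h5
      · show rq hk i h + rq hk h (Fin.rev h) = ρ
        rw [hρ, hjh]
        exact rq_add hk _ _ _
      · simp only
        have e := br2 hε ht hih (by omega) haD hg hg2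
        rw [mul_assoc, hgg, mul_one] at e
        rw [hjh]
        exact e

end Pool.Agent.QSB.H28
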