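import Pool.Agent.QSB.StmtsB2

set_option autoImplicit false

namespace Pool.Agent.QSB.H28

open Matrix Finset Pool.Agent.QSX Pool.Agent.QSN Filter Topology

theorem ivq_su_nF (Y : Dat) (F : Type) [CommRing F] [Algebra ℝ F]
    (x : Matrix (Fin Y.m) (Fin Y.m) F) (hx : x ∈ Y.nF F) : SU x := by
  refine Submodule.span_induction (p := fun x _ => SU x) ?_ ?_ ?_ ?_ hx
  · rintro _ ⟨y, hy, rfl⟩ i j hij
    show (algebraMap ℝ F) (y i j) = 0
    rw [Y.su y hy i j hij, map_zero]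
  · exact SU.zero
  · intro a b _ _ ha hb
    exact ha.add hb
  · intro c a _ ha
    exact ha.smul c

theorem ivq_uu_mexp {R : Type} [CommRing R] [Algebra ℝ R] {m : ℕ} {x : Matrix (Fin m) (Fin m) R}
    (hx : SU x) : UU (mexp x) := by
  intro i j h
  rw [Matrix.sub_apply, mexp, Matrix.sum_apply, Finset.sum_range_succ']
  have h1 : ∑ k ∈ range m, (((((k + 1).factorial : ℝ)⁻¹) • x ^ (k + 1)) i j) = 0 := by
    refine Finset.sum_eq_zero fun k _ => ?_
    rw [Matrix.smul_apply, hx.pow_apply (k + 1) i j (by have := Fin.le_def.1 h; omega), smul_zero]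
  rw [h1, zero_add, pow_zero, Nat.factorial_zero, Nat.cast_one, inv_one, one_smul, sub_self]

theorem ivq_kp_apply {R : Type} [Zero R] {m : ℕ} (q : Fin m → Fin m → Prop)
    (g : Matrix (Fin m) (Fin m) R) (i l : Fin m) [Decidable (i = l ∨ q i l)] :
    kp q g i l = if i = l ∨ q i l then g i l else 0 := by
  unfold kp
  by_cases h : i = l ∨ q i l
  · exact (if_pos h).trans (if_pos h).symm
  · exact (if_neg h).trans (if_neg h).symm

theorem ivq_uu_diag {R : Type} [CommRing R] {m : ℕ} {g : Matrix (Fin m) (Fin m) R} (h : UU g)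
    (i j : Fin m) (hij : j ≤ i) : g i j = (1 : Matrix (Fin m) (Fin m) R) i j := by
  have := h i j hij
  rwa [Matrix.sub_apply, sub_eq_zero] at this

theorem ivq_kp_one {R : Type} [CommRing R] {m : ℕ} (q : Fin m → Fin m → Prop)
    (g : Matrix (Fin m) (Fin m) R) (hu : UU g) (h : ∀ i k, i < k → g i k ≠ 0 → ¬ q i k) :
    kp q g = 1 := by
  classical
  ext i k
  rw [ivq_kp_apply]
  by_cases hik : i = k
  · subst hik
    rw [if_pos (Or.inl rfl)]
    exact ivq_uu_diag hu i i le_rfl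
  · rw [Matrix.one_apply_ne hik]
    by_cases hc : i = k ∨ q i k
    · rw [if_pos hc]
      rcases lt_or_gt_of_ne hik with hlt | hgt
      · by_contra hne
        exact h i k hlt hne (hc.resolve_left hik)
      · rw [ivq_uu_diag hu i k hgt.le, Matrix.one_apply_ne hik]
    · rw [if_neg hc]

theorem ivq_kp_self {R : Type} [CommRing R] {m : ℕ} (q : Fin m → Fin m → Prop)
    (g : Matrix (Fin m) (Fin m) R) (hu : UU g) (h : ∀ i k, i < k → g i k ≠ 0 → q i k) :
    kp q g = g := by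
  classical
  ext i k
  rw [ivq_kp_apply]
  by_cases hc : i = k ∨ q i k
  · rw [if_pos hc]
  · rw [if_neg hc]
    push Not at hc
    rcases lt_or_gt_of_ne hc.1 with hlt | hgt
    · by_contra hne
      exact hc.2 (h i k hlt (Ne.symm hne))
    · rw [ivq_uu_diag hu i k hgt.le, Matrix.one_apply_ne hc.1]

section

variable {X Y : Dat} {hX : MB X} {H : Grd hX} (A : AFQ X Y hX H)

/-- the difference as a unit -/
noncomputable def ivqU (mdv : Pool.Agent.QSB.MdvStmt) (n n' : ℕ → UX X) (h : A.GB n) (h' : A.GB n') :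
    (Matrix (Fin Y.m) (Fin Y.m) A.S.FF)ˣ where
  val := A.V n n'
  inv := A.V n' n
  val_inv := by
    rw [← (mdv X Y hX H A).2.1 n n' n h h' h]
    exact (mdv X Y hX H A).2.2 n h
  inv_val := by
    rw [← (mdv X Y hX H A).2.1 n' n n' h' h h']
    exact (mdv X Y hX H A).2.2 n' h'

theorem ivq_uu (mdv : Pool.Agent.QSB.MdvStmt) (n n' : ℕ → UX X) (h : A.GB n) (h' : A.GB n') : UU (A.V n n') := by
  obtain ⟨y, hy, e⟩ := ((mdv X Y hX H A).1 n n' h h').2
  rw [e]
  exact ivq_uu_mexp (ivq_su_nF Y _ y hy)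

theorem ivq_root (spv : Pool.Agent.QSB.SpvStmt) (l : hX.ι) (n n' : ℕ → UX X) (h : A.GB n) (h' : A.GB n')
    (x : ℕ → Matrix (Fin X.m) (Fin X.m) ℝ) (K : ℝ)
    (hx : ∀ s, x s ∈ Submodule.span ℝ (hX.e '' {t | hX.rt t = hX.rt l}))
    (hK : ∀ s i j, |x s i j| ≤ K) (hn : ∀ s, n' s = n s * ue (x s)) (i k : Fin Y.m) (hik : i < k)
    (hne : A.V n n' i k ≠ 0) : ∃ κ : ℝ, 0 < κ ∧ ∀ a, A.P a i - A.P a k = κ * hX.rt l a := by
  obtain ⟨h1, b, hb⟩ := spv X Y hX H A n n' h h' {t | hX.rt t = hX.rt l} x K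
    (Filter.Eventually.of_forall fun s => ⟨hx s, hK s, hn s⟩) i k hik hne
  obtain ⟨a₀, ha₀⟩ := hX.pos
  obtain ⟨κ, hκ, hw⟩ := fks (hX.rt l)
    ((LinearMap.proj i).comp A.P - (LinearMap.proj k).comp A.P : X.b →ₗ[ℝ] ℝ) ⟨a₀, ha₀ l⟩
    (fun a ha => h1 a (fun ν hν => by
      have hν' : hX.rt ν = hX.rt l := hν
      rw [hν']
      exact ha))
  have hw' : ∀ a, A.P a i - A.P a k = κ * hX.rt l a := hw
  refine ⟨κ, lt_of_le_of_ne hκ fun h0 => hb ?_, hw'⟩
  rw [hw' b, ← h0, zero_mul]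

theorem ivq_top (wkt : Pool.Agent.QSB.WktStmt) (spv : Pool.Agent.QSB.SpvStmt) (n n' : ℕ → UX X) (h : A.GB n) (h' : A.GB n')
    (z : ℕ → Fin H.D → ℝ) (K : ℝ) (hK : ∀ s k, |z s k| ≤ K)
    (hn : ∀ s, n' s = n s * H.u (z s)) (i k : Fin Y.m) (hik : i < k)
    (hne : A.V n n' i k ≠ 0) (a : X.b)
    (ha : ∀ t, hX.rt t = hX.rt (hX.top (hX.comp t)) → 0 ≤ hX.rt t a) :
    0 ≤ A.P a i - A.P a k := by
  have hspan : ∀ s, (∑ j, z s j • H.w j) ∈
      Submodule.span ℝ (hX.e '' {t | hX.rt t = hX.rt (hX.top (hX.comp t))}) := by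
    intro s
    refine Submodule.sum_mem _ fun j _ => Submodule.smul_mem _ _ ?_
    refine Submodule.span_mono (Set.image_mono ?_) (wkt X hX H j).2.2.1
    intro t ht
    have ht' : hX.rt t = hX.rt (hX.top (hX.comp (H.l j))) := ht
    have hc := hX.comp_rt t (hX.top (hX.comp (H.l j))) 1 (by rw [one_smul]; exact ht')
    rw [hX.comp_top] at hc
    show hX.rt t = hX.rt (hX.top (hX.comp t))
    rw [hc]
    exact ht'
  have hbd : ∀ s (i j : Fin X.m), |(∑ r, z s r • H.w r) i j| ≤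
      ∑ r, ∑ i, ∑ j, |K| * |H.w r i j| := by
    intro s i j
    rw [Matrix.sum_apply]
    refine (Finset.abs_sum_le_sum_abs _ _).trans (Finset.sum_le_sum fun r _ => ?_)
    rw [Matrix.smul_apply, smul_eq_mul, abs_mul]
    have e1 : |z s r| * |H.w r i j| ≤ |K| * |H.w r i j| :=
      mul_le_mul_of_nonneg_right ((hK s r).trans (le_abs_self K)) (abs_nonneg _)
    refine e1.trans ?_
    have e2 : |K| * |H.w r i j| ≤ ∑ j, |K| * |H.w r i j| :=
      Finset.single_le_sum (f := fun j => |K| * |H.w r i j|)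
        (fun j _ => mul_nonneg (abs_nonneg _) (abs_nonneg _)) (Finset.mem_univ j)
    refine e2.trans ?_
    exact Finset.single_le_sum (f := fun i => ∑ j, |K| * |H.w r i j|)
      (fun i _ => Finset.sum_nonneg fun j _ => mul_nonneg (abs_nonneg _) (abs_nonneg _))
      (Finset.mem_univ i)
  obtain ⟨h1, -⟩ := spv X Y hX H A n n' h h' {t | hX.rt t = hX.rt (hX.top (hX.comp t))}
    (fun s => ∑ j, z s j • H.w j) (∑ r, ∑ i, ∑ j, |K| * |H.w r i j|)
    (Filter.Eventually.of_forall fun s => ⟨hspan s, hbd s, hn s⟩) i k hik hne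
  exact h1 a (fun ν hν => ha ν hν)

end

theorem ivq (wkt : Pool.Agent.QSB.WktStmt) (aze : Pool.Agent.QSB.AzeStmt) (mdv : Pool.Agent.QSB.MdvStmt) (spv : Pool.Agent.QSB.SpvStmt) (cen : Pool.Agent.QSB.CenStmt)
    (fcp : FcpStmt) : Pool.Agent.QSB.IvqStmt := by
  intro X Y hX H A l hl n x z K hx hxK hzK h1 h2 h3 h4
  obtain ⟨a₀, ha0, hat⟩ := aze X hX l hl
  have hxn : ∀ s, x s ∈ X.n := by
    intro s
    rw [← hX.span_e]
    refine Submodule.span_mono ?_ (hx s)
    rintro _ ⟨t, -, rfl⟩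
    exact ⟨t, rfl⟩
  have hcomm : ∀ s, n s * ue (x s) * H.u (z s) = n s * H.u (z s) * ue (x s) := by
    intro s
    rw [mul_assoc, ← (cen X hX H).2.2.2 (z s) (x s) (hxn s), mul_assoc]
  obtain ⟨G, π, hG, hπ, -, -⟩ := fcp A.S.FF Y.m
    (fun i k => ∀ a : X.b, (∀ t, hX.rt t = hX.rt (hX.top (hX.comp t)) → 0 ≤ hX.rt t a) →
      0 ≤ hX.rt l a → 0 ≤ A.P a i - A.P a k)
    (fun i k => A.P a₀ i - A.P a₀ k = 0)
    (fun i j k _ _ e1 e2 a ha hb => by
      have := e1 a ha hb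
      have := e2 a ha hb
      linarith)
    (fun i j k _ _ e1 e2 => by
      have f1 := e1 a₀ (fun t ht => (hat t ht).ge) ha0.le
      have f2 := e2 a₀ (fun t ht => (hat t ht).ge) ha0.le
      constructor
      · intro h
        constructor <;> linarith
      · rintro ⟨g1, g2⟩
        linarith)
  -- differences along the root element
  have hroot : ∀ (p p' : ℕ → UX X) (hp : A.GB p) (hp' : A.GB p'),
      (∀ s, p' s = p s * ue (x s)) → ∃ hm : ivqU A mdv p p' hp hp' ∈ G, π ⟨_, hm⟩ = 1 := by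
    intro p p' hp hp' hs
    have huu := ivq_uu A mdv p p' hp hp'
    have hsup := ivq_root A spv l p p' hp hp' x K hx hxK hs
    have hm : ivqU A mdv p p' hp hp' ∈ G := by
      rw [hG]
      refine ⟨huu, fun i k hik hne a _ hb => ?_⟩
      obtain ⟨κ, hκ, hw⟩ := hsup i k hik hne
      rw [hw]
      exact mul_nonneg hκ.le hb
    refine ⟨hm, ?_⟩
    apply Units.ext
    rw [hπ ⟨_, hm⟩, Units.val_one]
    refine ivq_kp_one _ _ huu fun i k hik hne hq => ?_
    obtain ⟨κ, hκ, hw⟩ := hsup i k hik hne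
    have hq' : A.P a₀ i - A.P a₀ k = 0 := hq
    rw [hw] at hq'
    exact (mul_pos hκ ha0).ne' hq'
  have htop : ∀ (p p' : ℕ → UX X) (hp : A.GB p) (hp' : A.GB p'),
      (∀ s, p' s = p s * H.u (z s)) → ∃ hm : ivqU A mdv p p' hp hp' ∈ G,
        π ⟨_, hm⟩ = ivqU A mdv p p' hp hp' := by
    intro p p' hp hp' hs
    have huu := ivq_uu A mdv p p' hp hp'
    have hsup := ivq_top A wkt spv p p' hp hp' z K hzK hs
    have hm : ivqU A mdv p p' hp hp' ∈ G := by
      rw [hG]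
      exact ⟨huu, fun i k hik hne a ha _ => hsup i k hik hne a ha⟩
    refine ⟨hm, ?_⟩
    apply Units.ext
    rw [hπ ⟨_, hm⟩]
    refine ivq_kp_self _ _ huu fun i k hik hne => ?_
    have e1 := hsup i k hik hne a₀ (fun t ht => (hat t ht).ge)
    have e2 := hsup i k hik hne (-a₀) (fun t ht => by rw [map_neg, hat t ht, neg_zero])
    rw [map_neg, Pi.neg_apply, Pi.neg_apply] at e2
    show A.P a₀ i - A.P a₀ k = 0
    linarith
  obtain ⟨m1, p1⟩ := hroot n (fun s => n s * ue (x s)) h1 h2 (fun s => rfl)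
  obtain ⟨m2, p2⟩ := htop n (fun s => n s * H.u (z s)) h1 h3 (fun s => rfl)
  obtain ⟨m3, p3⟩ := hroot (fun s => n s * H.u (z s)) (fun s => n s * ue (x s) * H.u (z s)) h3 h4
    hcomm
  obtain ⟨m4, p4⟩ := htop (fun s => n s * ue (x s)) (fun s => n s * ue (x s) * H.u (z s)) h2 h4
    (fun s => rfl)
  have hrel : ivqU A mdv n (fun s => n s * ue (x s)) h1 h2 *
      ivqU A mdv (fun s => n s * ue (x s)) (fun s => n s * ue (x s) * H.u (z s)) h2 h4 =
      ivqU A mdv n (fun s => n s * H.u (z s)) h1 h3 *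
      ivqU A mdv (fun s => n s * H.u (z s)) (fun s => n s * ue (x s) * H.u (z s)) h3 h4 := by
    apply Units.ext
    rw [Units.val_mul, Units.val_mul]
    have e1 := (mdv X Y hX H A).2.1 n _ _ h1 h2 h4
    have e2 := (mdv X Y hX H A).2.1 n _ _ h1 h3 h4
    exact e1.symm.trans e2
  have hrel' : (⟨_, m1⟩ : G) * ⟨_, m4⟩ = ⟨_, m2⟩ * ⟨_, m3⟩ := Subtype.ext hrel
  have h5 := congrArg π hrel'
  rw [map_mul, map_mul, p1, p2, p3, p4, one_mul, mul_one] at h5
  have h6 := congrArg Units.val h5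
  exact h6.symm

end Pool.Agent.QSB.H28
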